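import Mathlib

set_option autoImplicit false

/-!
# The largest chromatic number of unit and midpoint veto interval graphs

The largest chromatic number of a unit veto interval graph is `4`; for midpoint unit and for
midpoint proper veto interval graphs it is `3`.
-/

namespace Pool.Agent.Results.MP_193372_co.MaxChromatic

/-- a veto interval: a closed interval `[l, r]` with a veto mark `v` strictly inside -/
structure VetoInterval where
  l : ℝ
  v : ℝ
  r : ℝ
  hlv : l < v
  hvr : v < r

/-- the two intervals meet and neither contains the veto mark of the other -/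
def VetoAdj (a b : VetoInterval) : Prop :=
  (a.v < b.l ∧ b.l < a.r ∧ a.r < b.v) ∨ (b.v < a.l ∧ a.l < b.r ∧ b.r < a.v)

/-- `I` is a veto interval representation of `G`: an injective map from the vertices to veto
intervals (a bijection onto its set of values) such that distinct vertices are adjacent if and only
if their veto intervals are -/
def IsRep {V : Type} (G : SimpleGraph V) (I : V → VetoInterval) : Prop :=
  Function.Injective I ∧ ∀ a b, a ≠ b → (G.Adj a b ↔ VetoAdj (I a) (I b))

/-- all intervals have the same length -/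
def UnitRep {V : Type} (I : V → VetoInterval) : Prop :=
  ∀ a b, (I a).r - (I a).l = (I b).r - (I b).l

/-- no interval properly contains another -/
def ProperRep {V : Type} (I : V → VetoInterval) : Prop :=
  ∀ a b, ¬ (Set.Icc (I a).l (I a).r ⊂ Set.Icc (I b).l (I b).r)

/-- every veto mark is the midpoint of its interval -/
def MidpointRep {V : Type} (I : V → VetoInterval) : Prop :=
  ∀ a, (I a).v = ((I a).l + (I a).r) / 2

/-- unit veto interval graphs -/
def IsUVI {V : Type} (G : SimpleGraph V) : Prop := ∃ I, IsRep G I ∧ UnitRep I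

/-- midpoint unit veto interval graphs -/
def IsMUVI {V : Type} (G : SimpleGraph V) : Prop := ∃ I, IsRep G I ∧ MidpointRep I ∧ UnitRep I

/-- midpoint proper veto interval graphs -/
def IsMPVI {V : Type} (G : SimpleGraph V) : Prop := ∃ I, IsRep G I ∧ MidpointRep I ∧ ProperRep I

lemma vetoAdj_symm {a b : VetoInterval} (h : VetoAdj a b) : VetoAdj b a := by
  rcases h with h | h
  · exact Or.inr h
  · exact Or.inl h

/-- the graph represented by `I` -/
def graphOf {V : Type} (I : V → VetoInterval) : SimpleGraph V where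
  Adj a b := a ≠ b ∧ VetoAdj (I a) (I b)
  symm := ⟨fun _ _ h => ⟨h.1.symm, vetoAdj_symm h.2⟩⟩
  loopless := ⟨fun _ h => h.1 rfl⟩

lemma graphOf_rep {V : Type} (I : V → VetoInterval) (hI : Function.Injective I) :
    IsRep (graphOf I) I :=
  ⟨hI, fun _ _ h => ⟨fun h' => h'.2, fun h' => ⟨h, h'⟩⟩⟩

/-- symmetric reduction: to colour a graph with a representation it is enough to treat the pairs
with the first interval on the left -/
lemma colorable_of {V : Type} {G : SimpleGraph V} {I : V → VetoInterval} (hI : IsRep G I) {k : ℕ}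
    (c : V → Fin k)
    (hc : ∀ a b, (I a).v < (I b).l → (I b).l < (I a).r → (I a).r < (I b).v → c a ≠ c b) :
    G.Colorable k := by
  refine ⟨SimpleGraph.Coloring.mk c ?_⟩
  intro a b hab
  rcases (hI.2 a b hab.ne).1 hab with h | h
  · exact hc a b h.1 h.2.1 h.2.2
  · exact (hc b a h.1 h.2.1 h.2.2).symm

lemma uvi_colorable {V : Type} (G : SimpleGraph V) (h : IsUVI G) : G.Colorable 4 := by
  obtain ⟨I, hI, hU⟩ := h
  classical
  rcases isEmpty_or_nonempty V with hV | ⟨⟨v0⟩⟩
  · exact ⟨SimpleGraph.Coloring.mk (fun v => (hV.false v).elim) (fun {v} => (hV.false v).elim)⟩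
  set L := (I v0).r - (I v0).l with hL
  have hLpos : 0 < L := by have := (I v0).hlv; have := (I v0).hvr; linarith
  have hr : ∀ a, (I a).r = (I a).l + L := fun a => by have := hU a v0; linarith
  let k : V → ℤ := fun a => ⌊(I a).l / L⌋
  have hk1 : ∀ a, (k a : ℝ) * L ≤ (I a).l := fun a => by
    have := Int.floor_le ((I a).l / L)
    rwa [le_div_iff₀ hLpos] at this
  have hk2 : ∀ a, (I a).l < ((k a : ℝ) + 1) * L := fun a => by
    have := Int.lt_floor_add_one ((I a).l / L)
    rwa [div_lt_iff₀ hLpos] at this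
  let c : V → Fin 4 := fun a =>
    if k a % 2 = 0 then (if (I a).v < ((k a : ℝ) + 1) * L then 0 else 1)
    else (if (I a).v < ((k a : ℝ) + 1) * L then 2 else 3)
  refine colorable_of hI c ?_
  intro a b h1 h2 h3
  have ha := (I a).hlv
  have hkk : k a ≤ k b := by
    apply Int.floor_le_floor
    apply div_le_div_of_nonneg_right _ hLpos.le
    linarith
  have hkk' : k b ≤ k a + 1 := by
    by_contra hcon
    push Not at hcon
    have h0 : k a + 2 ≤ k b := by omega
    have h4 : (k a : ℝ) + 2 ≤ k b := by exact_mod_cast h0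
    have h5 := hk1 b
    have h6 := hk2 a
    rw [hr a] at h2
    nlinarith
  rcases eq_or_lt_of_le hkk with he | hlt
  · have e1 : (I a).v < ((k a : ℝ) + 1) * L := by
      have := hk2 b
      rw [← he] at this
      linarith
    have e2 : ¬ (I b).v < ((k b : ℝ) + 1) * L := by
      rw [← he]
      have := hk1 a
      rw [hr a] at h3
      have e3 : ((k a : ℝ) + 1) * L = (k a : ℝ) * L + L := by ring
      rw [e3]
      push Not
      linarith
    simp only [c, ← he]
    rw [← he] at e2
    by_cases hpar : k a % 2 = 0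
    · simp [hpar, e1, e2]
    · simp [hpar, e1, e2]
  · have he : k b = k a + 1 := by omega
    simp only [c]
    by_cases hpar : k a % 2 = 0
    · have hpar' : ¬ k b % 2 = 0 := by omega
      simp only [hpar, hpar', if_true, if_false]
      split_ifs <;> decide
    · have hpar' : k b % 2 = 0 := by omega
      simp only [hpar, hpar', if_true, if_false]
      split_ifs <;> decide

/-- the vertices that end a chain of `k` steps `x ≪ y`, where `x ≪ y` means that the mark of `x` is
left of `y` and the right end of `x` is left of the mark of `y` -/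
def H {V : Type} (I : V → VetoInterval) : ℕ → Set V
  | 0 => Set.univ
  | k + 1 => {y | ∃ x ∈ H I k, (I x).v < (I y).l ∧ (I x).r < (I y).v}

lemma H_anti {V : Type} (I : V → VetoInterval) (k : ℕ) : H I (k + 1) ⊆ H I k := by
  induction k with
  | zero => intro y _; trivial
  | succ k ih =>
    rintro y ⟨x, hx, h⟩
    exact ⟨x, ih hx, h⟩

lemma H_mono {V : Type} (I : V → VetoInterval) {j k : ℕ} (h : j ≤ k) : H I k ⊆ H I j := by
  induction k, h using Nat.le_induction with
  | base => exact subset_rfl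
  | succ k _ ih => exact (H_anti I k).trans ih

lemma H_card {V : Type} [Fintype V] (I : V → VetoInterval) (k : ℕ) (y : V) (h : y ∈ H I k) :
    k ≤ (Set.toFinite {x | (I x).l < (I y).l}).toFinset.card := by
  classical
  induction k generalizing y with
  | zero => exact Nat.zero_le _
  | succ k ih =>
    obtain ⟨x, hx, h1, -⟩ := h
    have h2 := ih x hx
    have h3 : (I x).l < (I y).l := (I x).hlv.trans h1
    refine Nat.succ_le_of_lt (lt_of_le_of_lt h2 (Finset.card_lt_card ?_))
    refine ⟨?_, ?_⟩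
    · intro z hz
      simp only [Set.Finite.mem_toFinset, Set.mem_ofPred_eq] at hz ⊢
      exact hz.trans h3
    · intro hcon
      have : x ∈ (Set.toFinite {z | (I z).l < (I x).l}).toFinset := hcon (by
        simpa only [Set.Finite.mem_toFinset, Set.mem_ofPred_eq] using h3)
      simp only [Set.Finite.mem_toFinset, Set.mem_ofPred_eq] at this
      exact lt_irrefl _ this

lemma mpvi_colorable {V : Type} [Fintype V] (G : SimpleGraph V) (h : IsMPVI G) :
    G.Colorable 3 := by
  obtain ⟨I, hI, hM, hP⟩ := h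
  classical
  -- monotonicity of the right end points
  have hmono : ∀ a b, (I a).l ≤ (I b).l → (I a).r ≤ (I b).r := by
    intro a b hab
    by_contra hcon
    push Not at hcon
    refine hP b a ⟨Set.Icc_subset_Icc hab hcon.le, ?_⟩
    intro hs
    have h1 : (I a).r ∈ Set.Icc (I a).l (I a).r :=
      ⟨((I a).hlv.trans (I a).hvr).le, le_refl _⟩
    exact absurd (hs h1).2 (not_le.mpr hcon)
  have hv : ∀ a b, (I a).l ≤ (I b).l → (I a).v ≤ (I b).v := by
    intro a b hab
    rw [hM a, hM b]
    have := hmono a b hab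
    linarith
  -- height
  have hfin : ∀ y, ∃ m, y ∈ H I m ∧ y ∉ H I (m + 1) := by
    intro y
    by_contra hcon
    push Not at hcon
    have hall : ∀ m, y ∈ H I m := by
      intro m
      induction m with
      | zero => trivial
      | succ m ih => exact hcon m ih
    have := H_card I _ y (hall ((Set.toFinite {x | (I x).l < (I y).l}).toFinset.card + 1))
    omega
  choose h hh1 hh2 using hfin
  have hle : ∀ y m, y ∈ H I m → m ≤ h y := by
    intro y m hm
    by_contra hcon
    push Not at hcon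
    exact hh2 y (H_mono I hcon hm)
  let c : V → Fin 3 := fun a => ⟨h a % 3, Nat.mod_lt _ (by norm_num)⟩
  refine colorable_of hI c ?_
  intro x y h1 h2 h3
  have hlt : h x + 1 ≤ h y := hle y (h x + 1) ⟨x, hh1 x, h1, h3⟩
  have hup : h y ≤ h x + 2 := by
    by_contra hcon
    push Not at hcon
    obtain ⟨m, hm⟩ : ∃ m, h y = m + 3 := ⟨h y - 3, by omega⟩
    have hy := hh1 y
    rw [hm] at hy
    obtain ⟨z1, hz1, a1, b1⟩ := hy
    obtain ⟨z2, hz2, a2, b2⟩ := hz1
    obtain ⟨z3, hz3, a3, b3⟩ := hz2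
    have hxz : ¬ (I x).l ≤ (I z2).l := by
      intro hc
      have := hmono x z2 hc
      linarith
    push Not at hxz
    have hx : x ∈ H I (m + 1) := by
      refine ⟨z3, hz3, by linarith, ?_⟩
      have := hv z2 x hxz.le
      linarith
    have := hle x (m + 1) hx
    omega
  intro he
  have he' : h x % 3 = h y % 3 := congrArg Fin.val he
  omega

lemma muvi_mpvi {V : Type} (G : SimpleGraph V) (h : IsMUVI G) : IsMPVI G := by
  obtain ⟨I, hI, hM, hU⟩ := h
  refine ⟨I, hI, hM, ?_⟩
  intro a b hs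
  have h1 := (I a).hlv.trans (I a).hvr
  have h2 := hs.1 (Set.left_mem_Icc.mpr h1.le)
  have h3 := hs.1 (Set.right_mem_Icc.mpr h1.le)
  have h4 := hU a b
  apply hs.2
  intro t ht
  exact ⟨by linarith [ht.1, h2.1, h3.2], by linarith [ht.2, h2.1, h3.2]⟩

/-- the veto interval `[2 i, 2 i + 16]` with veto mark `2 i + 2 k + 1` -/
noncomputable def iv (i k : ℕ) (hk : k < 8) : VetoInterval where
  l := 2 * i
  v := 2 * i + 2 * k + 1
  r := 2 * i + 16
  hlv := by
    have : (0 : ℝ) ≤ k := Nat.cast_nonneg k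
    linarith
  hvr := by
    have : (k : ℝ) + 1 ≤ 8 := by exact_mod_cast hk
    linarith

/-- the parameters of the sixteen veto intervals -/
def prm : Fin 16 → ℕ × ℕ :=
  ![(2, 0), (4, 1), (4, 6), (6, 1), (6, 6), (8, 0), (8, 6), (9, 7), (10, 0), (11, 1), (11, 7),
    (13, 1), (13, 7), (15, 1), (15, 7), (17, 6)]

lemma prm_lt : ∀ a, (prm a).2 < 8 := by decide

/-- sixteen unit veto intervals -/
noncomputable def I16 (a : Fin 16) : VetoInterval := iv (prm a).1 (prm a).2 (prm_lt a)

set_option synthInstance.maxSize 4096 in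
theorem key : ∀ x14 : Fin 3, ∀ x6 : Fin 3, x14 ≠ x6 → ∀ x1 : Fin 3, x6 ≠ x1 → ∀ x9 : Fin 3,
    x14 ≠ x9 → x1 ≠ x9 → ∀ x12 : Fin 3, x9 ≠ x12 → ∀ x3 : Fin 3, x6 ≠ x3 → x12 ≠ x3 →
    ∀ x4 : Fin 3, x1 ≠ x4 → x12 ≠ x4 → ∀ x11 : Fin 3, x14 ≠ x11 → x3 ≠ x11 → x4 ≠ x11 →
    ∀ x8 : Fin 3, x14 ≠ x8 → x12 ≠ x8 → ∀ x10 : Fin 3, x1 ≠ x10 → x3 ≠ x10 → x8 ≠ x10 →
    ∀ x15 : Fin 3, x9 ≠ x15 → x11 ≠ x15 → x8 ≠ x15 → ∀ x5 : Fin 3, x14 ≠ x5 → x12 ≠ x5 →
    x10 ≠ x5 → ∀ x13 : Fin 3, x6 ≠ x13 → x15 ≠ x13 → x5 ≠ x13 → ∀ x7 : Fin 3, x1 ≠ x7 →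
    x3 ≠ x7 → x5 ≠ x7 → ∀ x0 : Fin 3, x6 ≠ x0 → x4 ≠ x0 → x7 ≠ x0 → ∀ x2 : Fin 3, x9 ≠ x2 →
    x10 ≠ x2 → x0 ≠ x2 → False := by decide +kernel

lemma iv_inj {i k j l : ℕ} {hk : k < 8} {hl : l < 8} (h : iv i k hk = iv j l hl) :
    i = j ∧ k = l := by
  have h1 : (iv i k hk).l = (iv j l hl).l := by rw [h]
  have h2 : (iv i k hk).v = (iv j l hl).v := by rw [h]
  simp only [iv] at h1 h2
  have e1 : (i : ℝ) = j := by linarith
  have e2 : (k : ℝ) = l := by linarith
  exact ⟨by exact_mod_cast e1, by exact_mod_cast e2⟩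

lemma I16_inj : Function.Injective I16 := by
  intro a b h
  have h1 := iv_inj h
  have h2 : prm a = prm b := Prod.ext h1.1 h1.2
  clear h1 h
  revert a b
  decide

lemma iv_adj {i k j l : ℕ} {hk : k < 8} {hl : l < 8} (h1 : 2 * i + 2 * k + 1 < 2 * j)
    (h2 : 2 * j < 2 * i + 16) (h3 : 2 * i + 16 < 2 * j + 2 * l + 1) :
    VetoAdj (iv i k hk) (iv j l hl) := by
  left
  simp only [iv]
  refine ⟨?_, ?_, ?_⟩
  · exact_mod_cast h1
  · exact_mod_cast h2
  · exact_mod_cast h3

/-- decidable form of adjacency among the sixteen intervals -/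
def adjB (a b : Fin 16) : Bool :=
  decide (2 * (prm a).1 + 2 * (prm a).2 + 1 < 2 * (prm b).1) &&
  decide (2 * (prm b).1 < 2 * (prm a).1 + 16) &&
  decide (2 * (prm a).1 + 16 < 2 * (prm b).1 + 2 * (prm b).2 + 1)

lemma adj16 {a b : Fin 16} (h : adjB a b = true ∨ adjB b a = true) :
    (graphOf I16).Adj a b := by
  have key : ∀ a b : Fin 16, adjB a b = true → (graphOf I16).Adj a b := by
    intro a b h
    simp only [adjB, Bool.and_eq_true, decide_eq_true_eq] at h
    refine ⟨?_, ?_⟩
    · rintro rfl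
      omega
    · exact iv_adj h.1.1 h.1.2 h.2
  rcases h with h | h
  · exact key a b h
  · exact (key b a h).symm

lemma not_colorable16 : ¬ (graphOf I16).Colorable 3 := by
  rintro ⟨C⟩
  have hE : ∀ a b : Fin 16, (adjB a b = true ∨ adjB b a = true) → C a ≠ C b :=
    fun a b h => C.valid (adj16 h)
  exact key (C 14) (C 6) (hE 14 6 (by decide)) (C 1) (hE 6 1 (by decide)) (C 9)
    (hE 14 9 (by decide)) (hE 1 9 (by decide)) (C 12) (hE 9 12 (by decide)) (C 3)
    (hE 6 3 (by decide)) (hE 12 3 (by decide)) (C 4) (hE 1 4 (by decide)) (hE 12 4 (by decide))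
    (C 11) (hE 14 11 (by decide)) (hE 3 11 (by decide)) (hE 4 11 (by decide)) (C 8)
    (hE 14 8 (by decide)) (hE 12 8 (by decide)) (C 10) (hE 1 10 (by decide))
    (hE 3 10 (by decide)) (hE 8 10 (by decide)) (C 15) (hE 9 15 (by decide))
    (hE 11 15 (by decide)) (hE 8 15 (by decide)) (C 5) (hE 14 5 (by decide))
    (hE 12 5 (by decide)) (hE 10 5 (by decide)) (C 13) (hE 6 13 (by decide))
    (hE 15 13 (by decide)) (hE 5 13 (by decide)) (C 7) (hE 1 7 (by decide)) (hE 3 7 (by decide))
    (hE 5 7 (by decide)) (C 0) (hE 6 0 (by decide)) (hE 4 0 (by decide)) (hE 7 0 (by decide))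
    (C 2) (hE 9 2 (by decide)) (hE 10 2 (by decide)) (hE 0 2 (by decide))

/-- the midpoint unit veto interval `[i, i + 10]` -/
noncomputable def mv (i : ℕ) : VetoInterval where
  l := i
  v := i + 5
  r := i + 10
  hlv := by linarith
  hvr := by linarith

/-- five midpoint unit veto intervals forming a `5`-cycle -/
noncomputable def I5 (a : Fin 5) : VetoInterval := mv ((![0, 6, 12, 3, 9] : Fin 5 → ℕ) a)

lemma mv_inj {i j : ℕ} (h : mv i = mv j) : i = j := by
  have h1 : (mv i).l = (mv j).l := by rw [h]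
  simp only [mv] at h1
  exact_mod_cast h1

lemma I5_inj : Function.Injective I5 := by
  intro a b h
  have h1 := mv_inj h
  clear h
  revert a b
  decide

lemma mv_adj {i j : ℕ} (h1 : i + 5 < j) (h2 : j < i + 10) : VetoAdj (mv i) (mv j) := by
  left
  simp only [mv]
  refine ⟨?_, ?_, ?_⟩
  · exact_mod_cast h1
  · exact_mod_cast h2
  · have : (i : ℝ) + 5 < j := by exact_mod_cast h1
    linarith

lemma not_colorable5 : ¬ (graphOf I5).Colorable 2 := by
  rintro ⟨C⟩
  have hE : ∀ a b : Fin 5, (![0, 6, 12, 3, 9] : Fin 5 → ℕ) a + 5 <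
      (![0, 6, 12, 3, 9] : Fin 5 → ℕ) b →
      (![0, 6, 12, 3, 9] : Fin 5 → ℕ) b < (![0, 6, 12, 3, 9] : Fin 5 → ℕ) a + 10 →
      C a ≠ C b := by
    intro a b h1 h2
    refine C.valid ⟨?_, mv_adj h1 h2⟩
    rintro rfl
    omega
  have h01 := hE 0 1 (by decide) (by decide)
  have h12 := hE 1 2 (by decide) (by decide)
  have h32 := hE 3 2 (by decide) (by decide)
  have h34 := hE 3 4 (by decide) (by decide)
  have h04 := hE 0 4 (by decide) (by decide)
  clear hE
  generalize C 0 = x0 at *
  generalize C 1 = x1 at *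
  generalize C 2 = x2 at *
  generalize C 3 = x3 at *
  generalize C 4 = x4 at *
  clear C
  revert x0 x1 x2 x3 x4
  decide

lemma chrom_eq {V : Type} (G : SimpleGraph V) (k : ℕ) (h1 : G.Colorable (k + 1))
    (h2 : ¬ G.Colorable k) : G.chromaticNumber = ((k + 1 : ℕ) : ℕ∞) := by
  apply le_antisymm h1.chromaticNumber_le
  by_contra hcon
  push Not at hcon
  have h3 : G.chromaticNumber ≤ (k : ℕ∞) := by
    have : G.chromaticNumber < (k : ℕ∞) + 1 := by exact_mod_cast hcon
    exact Order.le_of_lt_add_one this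
  exact h2 (SimpleGraph.chromaticNumber_le_iff_colorable.mp h3)

/-- **Answer to Q1.** The largest chromatic number of a (finite) unit veto interval graph is `4`;
for midpoint unit and for midpoint proper veto interval graphs it is `3`. -/
theorem result :
    IsGreatest {c : ℕ∞ | ∃ (n : ℕ) (G : SimpleGraph (Fin n)), IsUVI G ∧ G.chromaticNumber = c} 4 ∧
    IsGreatest {c : ℕ∞ | ∃ (n : ℕ) (G : SimpleGraph (Fin n)), IsMUVI G ∧ G.chromaticNumber = c} 3 ∧
    IsGreatest {c : ℕ∞ | ∃ (n : ℕ) (G : SimpleGraph (Fin n)), IsMPVI G ∧ G.chromaticNumber = c} 3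
    := by
  have hU16 : IsUVI (graphOf I16) := by
    refine ⟨I16, graphOf_rep I16 I16_inj, ?_⟩
    intro a b
    simp only [I16, iv]
    ring
  have hM5 : IsMUVI (graphOf I5) := by
    refine ⟨I5, graphOf_rep I5 I5_inj, ?_, ?_⟩
    · intro a
      simp only [I5, mv]
      ring
    · intro a b
      simp only [I5, mv]
      ring
  refine ⟨⟨?_, ?_⟩, ⟨?_, ?_⟩, ⟨?_, ?_⟩⟩
  · exact ⟨16, graphOf I16, hU16, chrom_eq _ 3 (uvi_colorable _ hU16) not_colorable16⟩
  · rintro c ⟨n, G, hG, rfl⟩
    exact (uvi_colorable G hG).chromaticNumber_le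
  · exact ⟨5, graphOf I5, hM5, chrom_eq _ 2 (mpvi_colorable _ (muvi_mpvi _ hM5)) not_colorable5⟩
  · rintro c ⟨n, G, hG, rfl⟩
    exact (mpvi_colorable G (muvi_mpvi _ hG)).chromaticNumber_le
  · exact ⟨5, graphOf I5, muvi_mpvi _ hM5,
      chrom_eq _ 2 (mpvi_colorable _ (muvi_mpvi _ hM5)) not_colorable5⟩
  · rintro c ⟨n, G, hG, rfl⟩
    exact (mpvi_colorable G hG).chromaticNumber_le

end Pool.Agent.Results.MP_193372_co.MaxChromatic
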